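import Pool.Agent.Helper84.OB.Stmts

/-!
# Row MI of the sheet Helper84/OB
-/

set_option autoImplicit false

universe u

open Set Pool.Agent.Helper84.BT Pool.Agent.Helper84.OB
open scoped Matroid

namespace Pool.Agent.Helper93.OB

/-- inclusion-exclusion for three sets, in terms of unions of two -/
lemma ncard_three {ι : Type*} [Finite ι] (P Q R : Set ι) :
    (P ∪ Q ∪ R).ncard + P.ncard + Q.ncard + R.ncard =
      (P ∪ Q).ncard + (P ∪ R).ncard + (Q ∪ R).ncard + (P ∩ Q ∩ R).ncard := by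
  have h1 := Set.ncard_union_add_ncard_inter (P ∪ Q) R (Set.toFinite _) (Set.toFinite _)
  have h2 := Set.ncard_union_add_ncard_inter (P ∩ R) (Q ∩ R) (Set.toFinite _) (Set.toFinite _)
  have h3 := Set.ncard_union_add_ncard_inter P R (Set.toFinite _) (Set.toFinite _)
  have h4 := Set.ncard_union_add_ncard_inter Q R (Set.toFinite _) (Set.toFinite _)
  have e1 : (P ∪ Q) ∩ R = (P ∩ R) ∪ (Q ∩ R) := union_inter_distrib_right P Q R
  have e2 : (P ∩ R) ∩ (Q ∩ R) = P ∩ Q ∩ R := by
    ext x
    simp only [mem_inter_iff]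
    tauto
  rw [e1] at h1
  rw [e2] at h2
  omega

theorem st_MI : ST_MI.{u} := by
  intro α _ M hM A B Y hA hB hY
  obtain ⟨m, F, hF⟩ := hM
  have hsub : A ∩ B ∩ Y ⊆ M.E := (inter_subset_left.trans inter_subset_left).trans
    hA.subset_ground
  have h0 : rk M (A ∩ B ∩ Y) ≤ (nb F (A ∩ B ∩ Y)).ncard := rk_le_nb hF hsub
  have h1 : (nb F (A ∩ B ∩ Y)).ncard ≤ (nb F A ∩ nb F B ∩ nb F Y).ncard := by
    apply Set.ncard_le_ncard _ (Set.toFinite _)
    refine subset_inter (subset_inter ?_ ?_) ?_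
    · exact nb_mono F (inter_subset_left.trans inter_subset_left)
    · exact nb_mono F (inter_subset_left.trans inter_subset_right)
    · exact nb_mono F inter_subset_right
  have h2 := ncard_three (nb F A) (nb F B) (nb F Y)
  rw [← nb_union, ← nb_union, ← nb_union, ← nb_union,
    nb_ncard_of_cyclic hF hA, nb_ncard_of_cyclic hF hB, nb_ncard_of_cyclic hF hY,
    nb_ncard_of_cyclic hF (hA.union hB), nb_ncard_of_cyclic hF (hA.union hY),
    nb_ncard_of_cyclic hF (hB.union hY), nb_ncard_of_cyclic hF ((hA.union hB).union hY)] at h2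
  omega

end Pool.Agent.Helper93.OB
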